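import Pool.Agent.MP_c69980_ag.H43.Spec7

/-!
The bad places are negligible.
-/

set_option autoImplicit false

namespace Pool.Agent.MP_c69980_ag.H43

open MvPolynomial H60 Finset Filter Topology Metric

section Loc
variable {L : Type} [Field L] [Algebra ℂ L] {P : Pl L} {r s : ℤ} {x y : L}

/-- The order of `x` at `P` is at least `r`. -/
def fewFGe (P : Pl L) (r : ℤ) (x : L) : Prop := x = 0 ∨ r ≤ P.ord x

lemma fewF_mono (a : fewFGe P r x) (h : s ≤ r) : fewFGe P s x := a.imp_right h.trans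

lemma fewF_add (h : FFd L) (a : fewFGe P r x) (b : fewFGe P r y) : fewFGe P r (x + y) := by
  by_cases e : x = 0
  · simpa [e] using b
  by_cases e' : y = 0
  · simpa [e'] using a
  by_cases e'' : x + y = 0
  · exact Or.inl e''
  have := h.a.add P x y e e' e''
  have := a.resolve_left e
  have := b.resolve_left e'
  right; omega

lemma fewF_mul (h : FFd L) (a : fewFGe P r x) (b : fewFGe P s y) : fewFGe P (r + s) (x * y) := by
  by_cases e : x = 0
  · exact Or.inl (by simp [e])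
  by_cases e' : y = 0
  · exact Or.inl (by simp [e'])
  have := h.a.mul P x y e e'
  have := a.resolve_left e
  have := b.resolve_left e'
  right; omega

lemma fewF_sum (h : FFd L) {κ : Type} (T : Finset κ) {f : κ → L} (a : ∀ i ∈ T, fewFGe P r (f i)) :
    fewFGe P r (∑ i ∈ T, f i) :=
  sum_induction f _ (fun _ _ => fewF_add h) (Or.inl rfl) a

lemma fewF_lam (P : Pl L) (x : L) : fewFGe P (-(lam P x : ℤ)) x :=
  Or.inr (by simp only [lam]; omega)

lemma fewF_le {B : ℕ} (a : fewFGe P (-(B : ℤ)) x) : lam P x ≤ B := by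
  rcases a with rfl | a
  · simp [lam_zero]
  · simp only [lam]; omega

lemma fewF_V (h : FFd L) (a : x ∈ P.V) : fewFGe P 0 x := by
  simpa [(h.lam_eq_zero P x).2 a] using fewF_lam P x

lemma fewF_one (h : FFd L) : P.ord (1 : L) = 0 := by simpa using h.a.con P 1

lemma fewF_pow (h : FFd L) (j : ℕ) : lam P (x ^ j) ≤ j * lam P x := by
  induction j with
  | zero => simp [lam, fewF_one h]
  | succ j ih => rw [pow_succ, add_mul, one_mul]; exact (h.lam_mul _ _ _).trans (by omega)

lemma fewF_prod (h : FFd L) {κ : Type} (T : Finset κ) (f : κ → L) :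
    lam P (∏ i ∈ T, f i) ≤ ∑ i ∈ T, lam P (f i) := by
  classical
  induction T using Finset.induction_on with
  | empty => simp [lam, fewF_one h]
  | insert i T hi ih => rw [prod_insert hi, sum_insert hi]; exact (h.lam_mul _ _ _).trans (by omega)

lemma fewF_aeval {ι : Type} {c : ι → L} (a : ∀ i, c i ∈ P.V) (f : MvPolynomial ι ℂ) :
    aeval c f ∈ P.V := by
  induction f using MvPolynomial.induction_on with
  | C b => simpa using P.const b
  | add p q hp hq => rw [map_add]; exact add_mem hp hq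
  | mul_X p i hp => rw [map_mul, aeval_X]; exact mul_mem hp (a i)

variable {D : Derivation ℂ L L} {S : Finset (Pl L)} {m : Pl L → ℤ} {χ : ℕ}

lemma fewF_D (h : CD D S m χ) (hP : P ∉ S) (hr : 0 ≤ r) (a : fewFGe P (r + 1) x) :
    fewFGe P r (D x) := by
  rcases a with rfl | a
  · exact Or.inl (map_zero D)
  · have := (h.ord P x (by omega)).2
    rw [h.one P hP] at this
    right; omega

lemma fewF_D0 (h : CD D S m χ) (hP : P ∉ S) (a : x ∈ P.V) : fewFGe P 0 (D x) := by
  simpa [h.one P hP, fewFGe] using h.reg P x a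

lemma fewF_it (h : CD D S m χ) (hP : P ∉ S) (hr : 0 ≤ r) (j : ℕ) (a : fewFGe P (r + j) x) :
    fewFGe P r (D^[j] x) := by
  induction j generalizing x with
  | zero => simpa using a
  | succ j ih => exact ih (fewF_D h hP (by omega) (fewF_mono a (by omega)))

lemma fewF_high (h : CD D S m χ) (hP : P ∉ S) (l : ℕ) (hx : x ≠ 0)
    (a : ∀ j < l + 1, fewFGe P 1 (D^[j] x)) : (l : ℤ) + 1 ≤ P.ord x := by
  have b : 1 ≤ P.ord x := (a 0 (by omega)).resolve_left hx
  induction l generalizing x with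
  | zero => simpa using b
  | succ l ih =>
    obtain ⟨c1, c2⟩ := h.ord P x (by omega)
    rw [h.one P hP] at c2
    have := ih c1 (fun j hj => a (j + 1) (by omega)) ((a 1 (by omega)).resolve_left c1)
    omega

lemma fewF_low (h : CD D S m χ) (hP : P ∉ S) {N E : ℕ} {A : ℕ → L}
    (a : ∑ j ∈ range N, A j * D^[j] x = 1) (b : ∀ j ∈ range N, lam P (A j) ≤ E) :
    lam P x⁻¹ ≤ N + E := by
  by_contra c
  have d : fewFGe P 1 (∑ j ∈ range N, A j * D^[j] x) := fewF_sum h.ff _ fun j hj => by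
    have e := b j hj
    have := mem_range.1 hj
    simp only [lam, h.ff.ord_inv] at c
    exact fewF_mono (fewF_mul h.ff (fewF_lam P (A j))
      (fewF_it (r := E + 1) h hP (by omega) j (Or.inr (by omega)))) (by omega)
  rw [a] at d
  have := d.resolve_left one_ne_zero
  rw [fewF_one h.ff] at this
  omega

end Loc

section Seq
variable {L : ℕ → Type} [∀ n, Field (L n)] [∀ n, Algebra ℂ (L n)] {U : Ultrafilter ℕ} {τ : ℕ → ℕ}

/-- Weights of small total mass. -/
def fewFSm (U : Ultrafilter ℕ) (τ : ℕ → ℕ) (e : ∀ n, Pl (L n) → ℕ) : Prop :=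
  ∀ N : ℕ, ∀ᶠ n in U, ∀ s : Finset (Pl (L n)), N * ∑ P ∈ s, e n P ≤ τ n

lemma fewFSm_zero : fewFSm (L := L) U τ fun _ _ => 0 :=
  fun _ => Eventually.of_forall fun _ _ => by simp

lemma fewFSm_add {e e' : ∀ n, Pl (L n) → ℕ} (a : fewFSm U τ e) (b : fewFSm U τ e') :
    fewFSm U τ fun n P => e n P + e' n P := fun N => by
  filter_upwards [a (2 * N), b (2 * N)] with n h1 h2 s
  have := h1 s
  have := h2 s
  rw [sum_add_distrib]
  nlinarith

lemma fewFSm_sum {κ : Type} (T : Finset κ) {e : κ → ∀ n, Pl (L n) → ℕ}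
    (a : ∀ i ∈ T, fewFSm U τ (e i)) : fewFSm U τ fun n P => ∑ i ∈ T, e i n P := by
  classical
  induction T using Finset.induction_on with
  | empty => simpa using fewFSm_zero
  | insert i T hi ih =>
    simpa only [sum_insert hi] using fewFSm_add (a i (mem_insert_self _ _))
      (ih fun j hj => a j (mem_insert_of_mem hj))

lemma fewF_rep {ι : Type} [Fintype ι] (hL : ∀ n, FFd (L n)) (φ : (∀ n, L n) →+* ℂ)
    {F : Subfield ℂ} (sm : ∀ a ∈ F, ∃ x, φ x = a ∧ Lo U τ fun n => deg (x n))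
    (c : ∀ n, ι → L n) {Φ : MvPolynomial ι ℂ} (hΦ : Cf F Φ) {d : ℕ} (hd : Φ.totalDegree ≤ d) :
    ∃ (x : ∀ n, L n) (e : ∀ n, Pl (L n) → ℕ), φ x = eval (fun i => φ fun n => c n i) Φ ∧
      fewFSm U τ e ∧ ∀ n P, lam P (x n) ≤ e n P + d * ∑ i, lam P (c n i) := by
  choose x h1 h2 using fun μ => sm _ (hΦ μ)
  refine ⟨∑ μ ∈ Φ.support, x μ * ∏ i, (fun n => c n i) ^ μ i,
    fun n P => ∑ μ ∈ Φ.support, lam P (x μ n), ?_, fewFSm_sum _ fun μ _ N => ?_, fun n P => ?_⟩
  · simp only [map_sum, map_mul, map_prod, map_pow, h1, eval_eq']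
  · filter_upwards [h2 μ N] with n hn s
    exact (Nat.mul_le_mul_left _ ((hL n).sum_le_deg _ s)).trans hn
  · simp only [Finset.sum_apply, Pi.mul_apply, Finset.prod_apply, Pi.pow_apply]
    refine fewF_le (fewF_sum (hL n) _ fun μ hμ => fewF_mono (fewF_lam _ _) ?_)
    rw [neg_le_neg_iff, Nat.cast_le]
    refine ((hL n).lam_mul _ _ _).trans (add_le_add
      (single_le_sum (f := fun μ => lam P (x μ n)) (fun _ _ => Nat.zero_le _) hμ) ?_)
    rw [mul_sum]
    exact (fewF_prod (hL n) _ _).trans (sum_le_sum fun i _ => (fewF_pow (hL n) _).trans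
      (Nat.mul_le_mul_right _ (((monomial_le_degreeOf i hμ).trans
        (degreeOf_le_totalDegree _ i)).trans hd)))

end Seq

theorem sFewF : SFewF := by
  intro t a M w Θ PP k L _ _ U D S m χ y g φ D' p₀ l F κ β sq hE hκ hβ out
  have hL : ∀ n, FFd (L n) := fun n => (sq.cd n).ff
  have eq : ∀ x x' : ∀ n, L n, φ x = φ x' ↔ ∀ᶠ n in U, x n = x' n := fun x x' => by
    rw [← sub_eq_zero, ← map_sub, hE.ker]
    simp only [Pi.sub_apply, sub_eq_zero]
  have hc : (fun i => φ fun n => co β (y n) i) = co β (Θ p₀) := funext fun i => by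
    have h0 : φ (fun n => y n (β i.2)) ≠ 0 := by
      rw [hE.th]; exact mul_ne_zero hE.l0 (hβ _).2
    have h1 := h0
    rw [Ne, hE.ker] at h1
    rw [co, ← mul_div_mul_left _ _ hE.l0, ← hE.th, ← hE.th, eq_div_iff h0, ← map_mul, eq]
    exact (Ultrafilter.eventually_not.2 h1).mono fun n hn => div_mul_cancel₀ _ hn
  have ev : ∀ A : CP M t, Cf k A →
      φ (fun n => aeval (co β (y n)) A) = eval (co β (Θ p₀)) A := fun A h => by
    obtain ⟨A', rfl⟩ := cf_iff.1 h
    rw [← hc]
    clear h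
    induction A' using MvPolynomial.induction_on with
    | C c => simpa using hE.cst c c.2
    | add p q hp hq => simp only [map_add, ← hp, ← hq]; exact φ.map_add _ _
    | mul_X p i hp =>
      simp only [map_mul, map_X, aeval_X, eval_X, ← hp]; exact φ.map_mul _ _
  have it : ∀ (j : ℕ) (x : ∀ n, L n), D'^[j] (φ x) = φ fun n => (D n)^[j] (x n) := fun j => by
    induction j with
    | zero => exact fun _ => rfl
    | succ j ih => exact fun x => by simp only [Function.iterate_succ_apply, hE.der, ih]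
  set T : ∀ n, Set (Pl (L n)) := fun n => {P | P ∉ S n ∧ BadP κ β (y n) P} with hT
  have ra : ∀ u ∈ RA F (co β (Θ p₀)), ∃ (x : ∀ n, L n) (e : ∀ n, Pl (L n) → ℕ), φ x = u ∧
      fewFSm U (fun n => ht (y n)) e ∧ ∀ n, ∀ P ∈ T n, lam P (x n) ≤ e n P := fun u hu => by
    obtain ⟨Φ, h1, rfl⟩ := mem_RA.1 hu
    obtain ⟨x, e, b1, b2, b3⟩ := fewF_rep hL φ hE.sm (fun n => co β (y n)) h1 le_rfl
    refine ⟨x, e, hc ▸ b1, b2, fun n P hP => ?_⟩
    simpa [fun i => ((hL n).lam_eq_zero P _).2 (hP.2.1 i)] using b3 n P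
  have sp : ∀ u ∈ Submodule.span (RA F (co β (Θ p₀))) (gens κ β D' (co β (Θ p₀))),
      ∃ (z : ∀ n, L n) (e : ∀ n, Pl (L n) → ℕ), φ z = u ∧ fewFSm U (fun n => ht (y n)) e ∧
        ∀ n, ∀ P ∈ T n, e n P = 0 → fewFGe P 1 (z n) := fun u hu => by
    induction hu using Submodule.span_induction with
    | mem u hu =>
      rcases hu with (rfl | ⟨f, hf, rfl⟩) | ⟨f, hf, rfl⟩
      · exact ⟨_, _, ev _ (hκ.cQ.rename _), fewFSm_zero, fun n P hP _ => hP.2.2.1⟩
      · refine ⟨fun n => aeval (co β (y n)) f.2 * aeval (co β (y n)) f.1, _, ?_, fewFSm_zero,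
          fun n P hP _ => ?_⟩
        · rw [← ev _ (hκ.cJ β f hf).1, ← ev _ (hκ.cJ β f hf).2, ← map_mul]; rfl
        · have b1 := fewF_V (hL n) (fewF_aeval hP.2.1 f.1)
          have b2 := fewF_V (hL n) (fewF_aeval hP.2.1 f.2)
          rcases hP.2.2.2 f hf with b | b | b
          · exact fewF_mul (r := 1) (hL n) b b1
          · exact Or.inl (by simp [b])
          · exact fewF_mono (fewF_mul (hL n) b2 (Or.inr b)) (by omega)
      · refine ⟨fun n => aeval (co β (y n)) f.2 * D n (aeval (co β (y n)) f.1), _, ?_, fewFSm_zero,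
          fun n P hP _ => ?_⟩
        · rw [← ev _ (hκ.cJ β f hf).1, ← ev _ (hκ.cJ β f hf).2, hE.der, ← map_mul]; rfl
        · have b1 := fewF_D0 (sq.cd n) hP.1 (fewF_aeval hP.2.1 f.1)
          have b2 := fewF_V (hL n) (fewF_aeval hP.2.1 f.2)
          rcases hP.2.2.2 f hf with b | b | b
          · exact fewF_mul (r := 1) (hL n) b b1
          · exact Or.inl (by simp [b])
          · exact fewF_mul (s := 1) (hL n) b2 (fewF_D (sq.cd n) hP.1 zero_le_one (Or.inr b))
    | zero => exact ⟨0, _, map_zero φ, fewFSm_zero, fun _ _ _ _ => Or.inl rfl⟩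
    | add u v _ _ hu hv =>
      obtain ⟨z, e, rfl, b2, b3⟩ := hu
      obtain ⟨z', e', rfl, c2, c3⟩ := hv
      exact ⟨z + z', _, map_add φ _ _, fewFSm_add b2 c2, fun n P hP h =>
        fewF_add (hL n) (b3 n P hP (by omega)) (c3 n P hP (by omega))⟩
    | smul r u _ hu =>
      obtain ⟨z, e, rfl, b2, b3⟩ := hu
      obtain ⟨x, e', c1, c2, c3⟩ := ra r r.2
      refine ⟨x * z, _, ?_, fewFSm_add b2 c2, fun n P hP h => ?_⟩
      · rw [map_mul, c1]; rfl
      · have := c3 n P hP
        exact fewF_mono (fewF_mul (hL n) (fewF_lam P (x n)) (b3 n P hP (by omega))) (by omega)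
  have card : ∀ N : ℕ, ∀ᶠ n in U, ∀ s : Finset (Pl (L n)), ↑s ⊆ T n → N * s.card ≤ ht (y n) := by
    intro N
    obtain ⟨d, l', Φ, b1, b2, b3, b4, b5, b6⟩ := out.o3 (3 * N * Fintype.card (CI M t))
    obtain ⟨x, e, c1, c2, c3⟩ := fewF_rep hL φ hE.sm (fun n => co β (y n)) b1 b2
    rw [hc] at c1
    obtain ⟨l', rfl⟩ : ∃ j, l' = j + 1 := ⟨l' - 1, by omega⟩
    choose z e' d1 d2 d3 using fun j : Fin (l' + 1) => sp _ (b6 j j.2)
    have x0 : ∀ᶠ n in U, x n ≠ 0 := by
      rw [← c1, Ne, hE.ker] at b3; exact Ultrafilter.eventually_not.2 b3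
    have xz : ∀ᶠ n in U, ∀ j : Fin (l' + 1), (D n)^[j] (x n) = z j n :=
      eventually_all.2 fun j => (eq _ _).1 (by rw [d1, ← c1, it])
    filter_upwards [x0, xz, c2 (3 * N), fewFSm_sum univ (fun j _ => d2 j) (3 * N)]
      with n f1 f2 f3 f4 s hs
    have g1 : (l' + 1) * s.card ≤ deg (x n) + (l' + 1) * ∑ P ∈ s, ∑ j, e' j n P := by
      rw [← (hL n).deg_inv, mul_sum, card_eq_sum_ones, mul_sum]
      refine le_trans ?_ (Nat.add_le_add_right ((hL n).sum_le_deg _ s) _)
      rw [← sum_add_distrib]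
      refine sum_le_sum fun P hP => ?_
      rcases Nat.eq_zero_or_pos (∑ j, e' j n P) with h | h
      · have := fewF_high (sq.cd n) (hs hP).1 l' f1 fun j hj =>
          (f2 ⟨j, hj⟩).symm ▸ d3 ⟨j, hj⟩ n P (hs hP) (sum_eq_zero_iff.1 h _ (mem_univ _))
        simp only [lam, (hL n).ord_inv]
        omega
      · exact (Nat.mul_le_mul_left _ h).trans (Nat.le_add_left _ _)
    have g2 : 3 * N * deg (x n) ≤ ht (y n) + 3 * N * Fintype.card (CI M t) * d * ht (y n) := by
      rw [deg, finsum_eq_sum _ ((hL n).lam_fin _)]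
      refine (Nat.mul_le_mul_left _ (sum_le_sum fun P _ => c3 n P)).trans ?_
      rw [sum_add_distrib, mul_add, ← mul_sum, sum_comm]
      refine add_le_add (f3 _) ?_
      rw [mul_assoc (3 * N), mul_assoc (3 * N), mul_comm _ d, mul_assoc d]
      refine Nat.mul_le_mul_left _ (Nat.mul_le_mul_left _ ?_)
      exact (sum_le_card_nsmul _ _ _ fun i _ =>
        ((hL n).sum_le_deg _ _).trans (deg_le_ht (y n) _ _)).trans_eq (by simp)
    have g3 := Nat.mul_le_mul_left (l' + 1) (f4 s)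
    have g4 := Nat.mul_le_mul_right (ht (y n)) b5
    have g5 := Nat.mul_le_mul_left (3 * N) g1
    refine Nat.le_of_mul_le_mul_left (c := 3 * (l' + 1)) ?_ (by omega)
    nlinarith [Nat.zero_le (l' * ht (y n))]
  obtain ⟨h, A, b1, b2⟩ := out.o1
  choose x e c1 c2 c3 using fun j => ra _ (b1 j)
  have one : ∀ᶠ n in U, ∑ j ∈ range h, x j n * (D n)^[j] (aeval (co β (y n)) (dh κ.Q : CP M t)) =
      1 := by
    have := (eq (∑ j ∈ range h, x j * fun n => (D n)^[j] (aeval (co β (y n)) (dh κ.Q : CP M t)))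
      1).1 (by simp only [map_sum, map_mul, c1, ← it, ev (dh κ.Q) (hκ.cQ.rename _), b2, map_one])
    simpa only [Finset.sum_apply, Pi.mul_apply, Pi.one_apply] using this
  intro N
  filter_upwards [one, card (2 * N * h), fewFSm_sum (range h) (fun j _ => c2 j) (2 * N)]
    with n f1 f2 f3 s hs
  have g1 : ∑ P ∈ s, lam P (aeval (co β (y n)) (dh κ.Q : CP M t))⁻¹ ≤
      h * s.card + ∑ P ∈ s, ∑ j ∈ range h, e j n P := by
    rw [card_eq_sum_ones, mul_sum, ← sum_add_distrib]
    refine sum_le_sum fun P hP => ?_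
    rw [mul_one]
    exact fewF_low (sq.cd n) (hs hP).1 f1 fun j hj => (c3 j n P (hs hP)).trans
      (single_le_sum (f := fun j => e j n P) (fun _ _ => Nat.zero_le _) hj)
  have g2 := f2 s hs
  have g3 := f3 s
  have g4 := Nat.mul_le_mul_left (2 * N) g1
  nlinarith

end Pool.Agent.MP_c69980_ag.H43
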