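import Pool.Agent.MP_c69980_ag.H43.Spec10
import Pool.Agent.MP_c69980_ag.S36.ArcP

/-!
A nonconstant function is a covering outside a finite set.
-/

set_option autoImplicit false

namespace Pool.Agent.MP_c69980_ag.H43

open H60 Finset Filter Topology Metric Pool.Agent.MP_f3836a_nt.PK

variable {L : Type} [Field L] [Algebra ℂ L]

section Alg

open Polynomial

variable (h : FFd L)
include h

lemma fib_zmul {P : Pl L} {x y : L} (a : P.Zero x) (b : y ∈ P.V) : P.Zero (x * y) := by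
  by_cases e : x = 0
  · exact Or.inl (by simp [e])
  by_cases e' : y = 0
  · exact Or.inl (by simp [e'])
  have := (h.a.mem P y e').1 b
  have := a.resolve_left e
  exact Or.inr (by rw [h.a.mul P x y e e']; omega)

lemma fib_zadd {P : Pl L} {x y : L} (a : P.Zero x) (b : P.Zero y) : P.Zero (x + y) := by
  rw [h.a.zero] at *
  exact P.V.nonunits.add_mem a b

lemma fib_zmem {P : Pl L} {x : L} (a : P.Zero x) : x ∈ P.V :=
  P.V.nonunits_le ((h.a.zero P x).1 a)

lemma fib_unit {P : Pl L} {x y : L} (a : x ≠ 0 ∧ P.ord x = 0) (b : P.Zero y) :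
    x + y ≠ 0 ∧ P.ord (x + y) = 0 := by
  have c : ¬ P.Zero (x + y) := fun k => by
    have := fib_zadd h k (fib_zmul h b (neg_mem P.V.one_mem))
    rw [show x + y + y * -1 = x by ring] at this
    have := this.resolve_left a.1
    omega
  have d : x + y ≠ 0 := fun k => c (Or.inl k)
  have := (h.a.mem P _ d).1 (add_mem ((h.a.mem P x a.1).2 a.2.ge) (fib_zmem h b))
  have : ¬ 0 < P.ord (x + y) := fun k => c (Or.inr k)
  exact ⟨d, by omega⟩

omit h in
lemma fib_dec {u v p : L} (hp : p ∈ Algebra.adjoin ℂ {u, v}) : ∃ c : ℂ,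
    ∃ p₁ ∈ Algebra.adjoin ℂ {u, v}, ∃ p₂ ∈ Algebra.adjoin ℂ {u, v},
      p = algebraMap ℂ L c + (u * p₁ + v * p₂) := by
  induction hp using Algebra.adjoin_induction with
  | mem x k =>
    rcases k with rfl | rfl
    · exact ⟨0, 1, one_mem _, 0, zero_mem _, by simp⟩
    · exact ⟨0, 0, zero_mem _, 1, one_mem _, by simp⟩
  | algebraMap c => exact ⟨c, 0, zero_mem _, 0, zero_mem _, by simp⟩
  | add x y _ _ a b =>
    obtain ⟨c, p, a1, q, a2, rfl⟩ := a
    obtain ⟨c', p', b1, q', b2, rfl⟩ := b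
    exact ⟨c + c', _, add_mem a1 b1, _, add_mem a2 b2, by rw [map_add]; ring⟩
  | mul x y _ hy a b =>
    obtain ⟨c, p, a1, q, a2, rfl⟩ := a
    obtain ⟨c', p', b1, q', b2, e⟩ := b
    have k := Subalgebra.algebraMap_mem (Algebra.adjoin ℂ {u, v}) c
    exact ⟨c * c', _, add_mem (mul_mem k b1) (mul_mem a1 hy), _,
      add_mem (mul_mem k b2) (mul_mem a2 hy), by
        rw [map_mul]; linear_combination algebraMap ℂ L c * e⟩

/-- At a smooth point of a plane model where `u` is a local coordinate there is only one place. -/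
lemma fib_loc {P Q : Pl L} {u v g w : L} (u0 : u ≠ 0) (uP : 0 < P.ord u) (uQ : 0 < Q.ord u)
    (vP : P.Zero v) (vQ : Q.Zero v) (hg : g ∈ Algebra.adjoin ℂ {u, v})
    (hw : w ∈ Algebra.adjoin ℂ {u, v}) (g0 : g ≠ 0) (gP : P.ord g = 0) (gQ : Q.ord g = 0)
    (e : g * v = u * w) (top : IntermediateField.adjoin ℂ {u, v} = ⊤) : P = Q ∧ P.ord u = 1 := by
  have V : ∀ R : Pl L, 0 < R.ord u → R.Zero v → ∀ x ∈ Algebra.adjoin ℂ {u, v}, x ∈ R.V :=
    fun R a b x => arcP_adj R (by simpa using ⟨fib_zmem h (Or.inr a), fib_zmem h b⟩)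
  have key : ∀ n : ℕ, ∀ p ∈ Algebra.adjoin ℂ {u, v}, p ≠ 0 → P.ord p = n →
      ∃ k : ℤ, P.ord p = k * P.ord u ∧ Q.ord p = k * Q.ord u := fun n => by
    induction n using Nat.strong_induction_on with
    | _ n ih =>
    intro p hp p0 p1
    obtain ⟨c, p₁, a1, p₂, a2, e1⟩ := fib_dec hp
    by_cases hc : c = 0
    · have e2 : g * p = u * (g * p₁ + w * p₂) := by
        rw [hc, map_zero] at e1
        linear_combination g * e1 + p₂ * e
      have m := add_mem (mul_mem hg a1) (mul_mem hw a2)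
      generalize g * p₁ + w * p₂ = q at e2 m
      have q0 : q ≠ 0 := fun k => mul_ne_zero g0 p0 (by rw [e2, k, mul_zero])
      have e3 : ∀ R : Pl L, R.ord g + R.ord p = R.ord u + R.ord q := fun R => by
        rw [← h.a.mul R _ _ g0 p0, e2, h.a.mul R _ _ u0 q0]
      obtain ⟨j, hj⟩ := Int.eq_ofNat_of_zero_le ((h.a.mem P _ q0).1 (V P uP vP q m))
      have e4 := e3 P
      have e5 := e3 Q
      obtain ⟨k, k1, k2⟩ := ih j (by omega) q m q0 hj
      exact ⟨k + 1, by linarith, by linarith⟩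
    · have z : ∀ R : Pl L, 0 < R.ord u → R.Zero v → R.ord p = 0 := fun R a b => e1 ▸
        (fib_unit h ⟨by simpa using hc, h.a.con R c⟩ (fib_zadd h
          (fib_zmul h (Or.inr a) (V R a b _ a1)) (fib_zmul h b (V R a b _ a2)))).2
      exact ⟨0, by simp [z P uP vP], by simp [z Q uQ vQ]⟩
  have all : ∀ x : L, x ≠ 0 → ∃ k : ℤ, P.ord x = k * P.ord u ∧ Q.ord x = k * Q.ord u := by
    intro x hx
    obtain ⟨r, hr, s, hs, rfl⟩ := IntermediateField.mem_adjoin_iff_div.1
      (top ▸ IntermediateField.mem_top : x ∈ IntermediateField.adjoin ℂ {u, v})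
    obtain ⟨r0, s0⟩ := div_ne_zero_iff.1 hx
    obtain ⟨i, hi⟩ := Int.eq_ofNat_of_zero_le ((h.a.mem P _ r0).1 (V P uP vP r hr))
    obtain ⟨j, hj⟩ := Int.eq_ofNat_of_zero_le ((h.a.mem P _ s0).1 (V P uP vP s hs))
    obtain ⟨k, k1, k2⟩ := key i r hr r0 hi
    obtain ⟨l, l1, l2⟩ := key j s hs s0 hj
    refine ⟨k - l, ?_, ?_⟩ <;>
      rw [div_eq_mul_inv, h.a.mul _ _ _ r0 (inv_ne_zero s0), h.ord_inv] <;> linarith
  refine ⟨Place.ext (SetLike.ext fun x => ?_), ?_⟩
  · by_cases hx : x = 0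
    · simp [hx]
    · obtain ⟨k, k1, k2⟩ := all x hx
      rw [h.a.mem P x hx, h.a.mem Q x hx, k1, k2, mul_nonneg_iff_of_pos_right uP,
        mul_nonneg_iff_of_pos_right uQ]
  · obtain ⟨π, a, b⟩ := h.a.uni P
    obtain ⟨k, k1, -⟩ := all π a
    exact Int.eq_one_of_mul_eq_one_left uP.le (k1.symm.trans b)

variable {T : L} (hT : Transcendental ℂ T)
include hT

omit h in
lemma fib_ne (t : ℂ) : T - algebraMap ℂ L t ≠ 0 := fun e =>
  hT (sub_eq_zero.1 e ▸ isAlgebraic_algebraMap t)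

lemma fib_iff (P : Pl L) (t : ℂ) : (T ∈ P.V ∧ P.val T = t) ↔ 0 < P.ord (T - algebraMap ℂ L t) := by
  refine ⟨fun a => ((h.a.val P T a.1 t).2 a.2).resolve_left (fib_ne hT t), fun a => ?_⟩
  have b : T ∈ P.V := by simpa using add_mem (fib_zmem h (Or.inr a)) (P.const t)
  exact ⟨b, (h.a.val P T b t).1 (Or.inr a)⟩

lemma fib_cnt (t : ℂ) : ∃ S : Finset (Pl L), (∀ P, P ∈ S ↔ 0 < P.ord (T - algebraMap ℂ L t)) ∧
    ∑ P ∈ S, P.ord (T - algebraMap ℂ L t) =
      Module.finrank (IntermediateField.adjoin ℂ {T}) L := by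
  have a : IntermediateField.adjoin ℂ {T - algebraMap ℂ L t} = IntermediateField.adjoin ℂ {T} := by
    refine le_antisymm (IntermediateField.adjoin_simple_le_iff.2 (sub_mem
      (IntermediateField.mem_adjoin_simple_self _ T) (IntermediateField.algebraMap_mem _ t)))
      (IntermediateField.adjoin_simple_le_iff.2 ?_)
    simpa using add_mem (IntermediateField.mem_adjoin_simple_self ℂ (T - algebraMap ℂ L t))
      (IntermediateField.algebraMap_mem _ t)
  have b := h.b.deg (T - algebraMap ℂ L t) fun k => hT (by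
    simpa using k.add (isAlgebraic_algebraMap t))
  have f : {P : Pl L | 0 < P.ord (T - algebraMap ℂ L t)}.Finite :=
    (h.b.fin _).subset fun P hP => ne_of_gt hP
  rw [a, finsum_eq_sum_of_support_subset (s := f.toFinset) _ fun P hP => by
    simpa using hP] at b
  refine ⟨f.toFinset, by simp, b ▸ sum_congr rfl fun P hP => (max_eq_left ?_).symm⟩
  exact le_of_lt (by simpa using hP)

lemma fib_alg : ∃ (θ : L) (E : Finset ℂ), ∀ t ∉ E, ∀ P : Pl L, 0 < P.ord (T - algebraMap ℂ L t) →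
    θ ∈ P.V ∧ P.ord (T - algebraMap ℂ L t) = 1 ∧
      ∀ Q : Pl L, 0 < Q.ord (T - algebraMap ℂ L t) → P.val θ = Q.val θ → P = Q := by
  classical
  have := h.b.fd T hT
  have : CharZero (IntermediateField.adjoin ℂ {T}) :=
    charZero_of_injective_algebraMap (algebraMap ℂ _).injective
  have : CharZero (Algebra.adjoin ℂ {T}) :=
    charZero_of_injective_algebraMap (algebraMap ℂ _).injective
  obtain ⟨y, hg⟩ := Field.exists_primitive_element (IntermediateField.adjoin ℂ {T}) L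
  have hex : ∃ n, ∃ F : (Algebra.adjoin ℂ {T})[X], F ≠ 0 ∧ aeval y F = 0 ∧ F.natDegree = n := by
    obtain ⟨F, a, b⟩ := IntermediateField.isAlgebraic_adjoin_iff.1
      (Algebra.IsAlgebraic.isAlgebraic (R := IntermediateField.adjoin ℂ {T}) y)
    exact ⟨_, F, a, b, rfl⟩
  obtain ⟨F, f0, f1, f2⟩ := Nat.find_spec hex
  have fd : F.natDegree ≠ 0 := fun k => by
    rw [eq_C_of_natDegree_eq_zero k, aeval_C, Subalgebra.algebraMap_def] at f1
    refine f0 ?_
    rw [eq_C_of_natDegree_eq_zero k, show F.coeff 0 = 0 from Subtype.ext f1, C_0]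
  have f3 : aeval y F.derivative ≠ 0 := fun k => Nat.find_min hex
    (f2 ▸ natDegree_derivative_lt fd)
    ⟨_, fun k' => fd (derivative_eq_zero.1 k'), k, rfl⟩
  have hg' := IntermediateField.adjoin_simple_adjoin_simple (F := ℂ) (α := T) y
  rw [hg, IntermediateField.restrictScalars_top] at hg'
  have fin := (h.b.fin y).union (h.b.fin (aeval y F.derivative))
  refine ⟨y, fin.toFinset.image fun P => P.val T, fun t ht => ?_⟩
  have gd : ∀ P : Pl L, 0 < P.ord (T - algebraMap ℂ L t) →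
      y ∈ P.V ∧ P.ord (aeval y F.derivative) = 0 := fun P hP => by
    have a : P ∉ fin.toFinset := fun k => ht (mem_image.2 ⟨P, k, ((fib_iff h hT P t).2 hP).2⟩)
    simp only [Set.Finite.mem_toFinset, Set.mem_union, Set.mem_ofPred_eq, not_or, not_not] at a
    exact ⟨(h.lam_eq_zero P y).1 (by simp [lam, a.1]), a.2⟩
  suffices H : ∀ P Q : Pl L, 0 < P.ord (T - algebraMap ℂ L t) → 0 < Q.ord (T - algebraMap ℂ L t) →
      P.val y = Q.val y → P = Q ∧ P.ord (T - algebraMap ℂ L t) = 1 from fun P hP =>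
    ⟨(gd P hP).1, (H P P hP hP rfl).2, fun Q hQ e => (H P Q hP hQ e).1⟩
  intro P Q hP hQ e
  have vP := (h.a.val P y (gd P hP).1 _).2 rfl
  have vQ := (h.a.val Q y (gd Q hQ).1 _).2 e.symm
  generalize P.val y = a at vP vQ
  have u0 := fib_ne hT t
  obtain ⟨u, rfl⟩ : ∃ u, T = u + algebraMap ℂ L t := ⟨_, (sub_add_cancel _ _).symm⟩
  obtain ⟨v, rfl⟩ : ∃ v, y = v + algebraMap ℂ L a := ⟨_, (sub_add_cancel _ _).symm⟩
  simp only [add_sub_cancel_right] at *
  have m1 : u ∈ Algebra.adjoin ℂ {u, v} := Algebra.subset_adjoin (by simp)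
  have m2 : v ∈ Algebra.adjoin ℂ {u, v} := Algebra.subset_adjoin (by simp)
  have l1 : Algebra.adjoin ℂ {u + algebraMap ℂ L t} ≤ Algebra.adjoin ℂ {u} :=
    Algebra.adjoin_le (by
      simpa using add_mem (Algebra.self_mem_adjoin_singleton ℂ u) (Subalgebra.algebraMap_mem _ t))
  have l2 : Algebra.adjoin ℂ {u} ≤ Algebra.adjoin ℂ {u, v} := Algebra.adjoin_mono (by simp)
  have V : ∀ R : Pl L, 0 < R.ord u → R.Zero v → ∀ x ∈ Algebra.adjoin ℂ {u, v}, x ∈ R.V :=
    fun R a b x => arcP_adj R (by simpa using ⟨fib_zmem h (Or.inr a), fib_zmem h b⟩)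
  obtain ⟨κ', k1, k2⟩ := (arcP_taylor (l1.trans l2) F.derivative
    ⟨_, Subalgebra.algebraMap_mem _ a⟩ m2).1
  obtain ⟨κ, k3, k4⟩ := (arcP_taylor (l1.trans l2) F ⟨_, Subalgebra.algebraMap_mem _ a⟩ m2).2
  obtain ⟨c, w, c1, c2⟩ := arcP_one (l1 (F.eval ⟨_, Subalgebra.algebraMap_mem _ a⟩).2)
  have m3 := l2 (l1 (F.derivative.eval ⟨_, Subalgebra.algebraMap_mem _ a⟩).2)
  have m4 := add_mem m3 (mul_mem m2 k3)
  have un : ∀ R : Pl L, 0 < R.ord u → R.Zero v → _ := fun R a b =>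
    fib_unit h ⟨f3, (gd R a).2⟩ (fib_zmul h b (V R a b _ (sub_mem k3 k1)))
  simp only at k2 k4
  rw [k2, show ∀ x : L, x + v * κ' + v * (κ - κ') = x + v * κ from fun x => by ring] at un
  have c0 : c = 0 := by
    by_contra k
    refine (fib_unit h ⟨by simpa using k, h.a.con P c⟩ (fib_zadd h
      (fib_zmul h (Or.inr hP) (V P hP vP _ (l2 c1))) (fib_zmul h vP (V P hP vP _ m4)))).1 ?_
    linear_combination f1 - k4 - c2
  rw [c0, map_zero] at c2
  refine fib_loc h u0 hP hQ vP vQ m4 (neg_mem (l2 c1)) (un P hP vP).1 (un P hP vP).2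
    (un Q hQ vQ).2 (by linear_combination f1 - k4 - c2) ?_
  rw [eq_top_iff, hg', IntermediateField.adjoin_le_iff]
  have le' := IntermediateField.algebra_adjoin_le_adjoin ℂ ({u, v} : Set L)
  rintro x (rfl | rfl)
  · exact le' (add_mem m1 (Subalgebra.algebraMap_mem _ t))
  · exact le' (add_mem m2 (Subalgebra.algebraMap_mem _ a))

end Alg

/-- An arc along which a given uniformiser is the parameter. -/
lemma fib_arc (H : SArcP) (h : FFd L) (P : Pl L) {u : L} (u0 : u ≠ 0) (u1 : P.ord u = 1) :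
    ∃ β : ℂ → Pl L, β 0 = P ∧ ∀ᶠ s in 𝓝 0, Arc β {s} ∧ u ∈ (β s).V ∧ (β s).val u = s := by
  obtain ⟨α, ε, e0, rfl, a1, -, a2⟩ := H L h P
  obtain ⟨b1, b2⟩ := a1 0 (mem_ball_self e0) u ((h.a.mem _ u u0).2 (by omega))
  have b3 := a2 u u0
  rw [u1, b2.meromorphicOrderAt_eq] at b3
  have b4 : analyticOrderAt (fun s => (α s).val u) 0 = (0 : ℕ) + 1 := by
    generalize analyticOrderAt (fun s => (α s).val u) 0 = n at b3
    cases n
    · simp at b3
    · simpa using b3
  have b5 : (α 0).val u = 0 := (h.a.val _ u b1.self_of_nhds 0).1 (Or.inr (by simp [u1]))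
  have b6 : deriv (fun s => (α s).val u) 0 ≠ 0 :=
    b2.deriv.analyticOrderAt_eq_zero.1 (by simpa using analyticOrderAt_deriv_of_pos b2 b4)
  have c1 := b2.analyticAt_localInverse b6
  have c2 := b2.hasStrictDerivAt.eventually_right_inverse b6
  have c3 := (b2.hasStrictDerivAt.eventually_left_inverse b6).self_of_nhds
  generalize b2.hasStrictDerivAt.localInverse _ _ _ b6 = ψ at c1 c2 c3
  simp only [b5] at c1 c2 c3
  have c4 : Tendsto ψ (𝓝 0) (𝓝 0) := by simpa only [ContinuousAt, c3] using c1.continuousAt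
  refine ⟨fun s => α (ψ s), by simp only [c3], ?_⟩
  filter_upwards [c1.eventually_analyticAt, c2, c4.eventually b1,
    c4.eventually (ball_mem_nhds 0 e0)] with s d1 d2 d3 d4
  refine ⟨?_, d3, d2⟩
  rintro _ rfl x hx
  obtain ⟨d5, d6⟩ := a1 _ d4 x hx
  exact ⟨d1.continuousAt.eventually d5, d6.comp d1⟩

theorem sFib (H : SArcP) : SFib := by
  classical
  intro L _ _ h T hT
  obtain ⟨θ, E, hE⟩ := fib_alg h hT
  have := h.b.fd T hT
  obtain ⟨d, hd⟩ := Nat.exists_eq_add_one_of_ne_zero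
    (Module.finrank_pos (R := IntermediateField.adjoin ℂ {T}) (M := L)).ne'
  refine ⟨θ, d, E, fun t ht => ?_⟩
  obtain ⟨S, s1, s2⟩ := fib_cnt h hT t
  rw [sum_congr rfl fun P hP => (hE t ht P ((s1 P).1 hP)).2.1, hd] at s2
  have s3 : S.card = d + 1 := by simpa using (Nat.cast_inj (R := ℤ)).1 (by simpa using s2)
  obtain ⟨p, p1, p2⟩ : ∃ p : Fin (d + 1) → Pl L, Function.Injective p ∧ ∀ j, p j ∈ S :=
    ⟨fun j => (S.equivFinOfCardEq s3).symm j, Subtype.val_injective.comp (Equiv.injective _),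
      fun j => Subtype.coe_prop _⟩
  have p3 := fun j => hE t ht _ ((s1 _).1 (p2 j))
  choose β b0 b1 using fun j => fib_arc H h (p j) (fib_ne hT t) (p3 j).2.1
  have b2 := fun j => (b1 j).self_of_nhds.1 0 rfl θ (b0 j ▸ (p3 j).1)
  have b3 : ∀ᶠ s in 𝓝 (0 : ℂ), ∀ i j, i ≠ j → (β i s).val θ ≠ (β j s).val θ :=
    eventually_all.2 fun i => eventually_all.2 fun j => eventually_imp_distrib_left.2 fun k =>
      ((b2 i).2.continuousAt.ne_iff_eventually_ne (b2 j).2.continuousAt).1 fun e => k (p1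
        ((p3 i).2.2 _ ((s1 _).1 (p2 j)) (by simpa only [b0] using e)))
  obtain ⟨ε, e0, e1⟩ := Metric.eventually_nhds_iff_ball.1 ((eventually_all.2 b1).and
    ((eventually_all.2 fun j => (b2 j).1).and b3))
  refine ⟨ε, β, e0, fun j s hs => ((e1 s hs).1 j).1 s rfl, fun s hs => ?_⟩
  obtain ⟨c1, c2, c3⟩ := e1 s hs
  have c4 : Function.Injective fun j => (β j s).val θ := fun i j e => by_contra fun k => c3 i j k e
  refine ⟨fun P => ?_, c2, c4⟩
  obtain ⟨S', r1, r2⟩ := fib_cnt h hT (t + s)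
  have c5 : ∀ j, β j s ∈ S' := fun j => (r1 _).2 (by
    rw [map_add, ← sub_sub]
    refine ((h.a.val _ _ (c1 j).2.1 s).2 (c1 j).2.2).resolve_left ?_
    rw [sub_sub, ← map_add]
    exact fib_ne hT _)
  have c6 : univ.image (fun j => β j s) = S' := by
    refine eq_of_subset_of_card_le (image_subset_iff.2 fun j _ => c5 j) ?_
    rw [card_image_of_injective _ fun i j e => c4 (by simp only [e]), card_fin, ← hd]
    zify
    rw [← r2, card_eq_sum_ones, Nat.cast_sum]
    exact sum_le_sum fun P hP => (r1 P).1 hP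
  rw [fib_iff h hT, ← r1, ← c6]
  simp [eq_comm]

end Pool.Agent.MP_c69980_ag.H43
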